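import Pool.Agent.MP_05a99f_pr.VarBound

set_option autoImplicit false
set_option linter.unusedSectionVars false

/-!
Deterministic chaining argument: on the good event, the local time of the walk along every
monotone curve is at most of order `√n` up to logarithms.
-/

namespace Pool.Agent.LISWalk

open MeasureTheory Finset

/-- Initial segments: a downward closed predicate holds at `t < n` iff `t` is smaller than the
number of elements of `range n` satisfying it. -/
theorem lt_card_filter_iff (p : ℕ → Prop) [DecidablePred p] (hp : ∀ a b, a ≤ b → p b → p a)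
    {t n : ℕ} (ht : t < n) : t < ((range n).filter p).card ↔ p t := by
  constructor
  · intro h
    by_contra hpt
    have : (range n).filter p ⊆ range t := by
      intro i hi
      rw [mem_filter] at hi
      rw [mem_range]
      by_contra hit
      exact hpt (hp t i (not_lt.1 hit) hi.2)
    have := card_le_card this
    rw [card_range] at this
    omega
  · intro h
    have : range (t + 1) ⊆ (range n).filter p := by
      intro i hi
      rw [mem_range] at hi
      rw [mem_filter, mem_range]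
      exact ⟨by omega, hp i t (by omega) h⟩
    have := card_le_card this
    rw [card_range] at this
    omega

theorem card_filter_le' (p : ℕ → Prop) [DecidablePred p] (n : ℕ) :
    ((range n).filter p).card ≤ n := by
  have := card_filter_le (range n) p
  rwa [card_range] at this

/-- Fibres of a monotone map are intervals. -/
theorem fiber_eq_Ico {k : ℕ → ℕ} (hk : Monotone k) (v n : ℕ) :
    (range n).filter (fun t => k t = v) =
      Ico ((range n).filter (fun t => k t < v)).card ((range n).filter (fun t => k t ≤ v)).card := by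
  ext t
  rw [mem_filter, mem_range, mem_Ico]
  have h1 : ∀ a b, a ≤ b → k b < v → k a < v := fun a b hab hb => lt_of_le_of_lt (hk hab) hb
  have h2 : ∀ a b, a ≤ b → k b ≤ v → k a ≤ v := fun a b hab hb => le_trans (hk hab) hb
  constructor
  · rintro ⟨ht, htv⟩
    have e1 := lt_card_filter_iff (fun t => k t < v) h1 ht
    have e2 := lt_card_filter_iff (fun t => k t ≤ v) h2 ht
    constructor
    · by_contra hcon
      have := e1.1 (not_le.1 hcon)
      omega
    · exact e2.2 htv.le
  · rintro ⟨ha, hb⟩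
    have ht : t < n := lt_of_lt_of_le hb (card_filter_le' _ n)
    have e1 := lt_card_filter_iff (fun t => k t < v) h1 ht
    have e2 := lt_card_filter_iff (fun t => k t ≤ v) h2 ht
    refine ⟨ht, ?_⟩
    have h3 := e2.1 hb
    have h4 : ¬ k t < v := fun h => absurd (e1.2 h) (not_lt.2 ha)
    omega

theorem sum_fiber_le {k : ℕ → ℕ} (hk : Monotone k) (v n : ℕ) (f : ℕ → ℝ) (h : ℝ)
    (hf1 : ∀ t, f t ≤ h) (hf2 : ∀ t, -h ≤ f t) (hh : 0 ≤ h) :
    ∑ t ∈ (range n).filter (fun t => k t = v), (f (t + 1) - f t) ≤ 2 * h := by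
  rw [fiber_eq_Ico hk v n]
  set a := ((range n).filter (fun t => k t < v)).card
  set b := ((range n).filter (fun t => k t ≤ v)).card
  rcases le_total a b with hab | hab
  · rw [Finset.sum_Ico_eq_sum_range]
    have e : ∑ i ∈ range (b - a), (f (a + i + 1) - f (a + i)) = f b - f a := by
      have := Finset.sum_range_sub (fun i => f (a + i)) (b - a)
      simp only [add_zero] at this
      rw [Nat.add_sub_of_le hab] at this
      rw [← this]
      rfl
    rw [e]
    linarith [hf1 b, hf2 a]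
  · rw [Finset.Ico_eq_empty_of_le hab, sum_empty]
    linarith

/-- The exponent of the exponential supermartingale. -/
noncomputable def Q (μ : Measure ℝ) (R h θ : ℝ) (v : ℕ) (s z : ℝ) : ℝ :=
  if Odd v then
    -θ * (psi h (s - (-2 * R + 2 * h * ((v / 2 : ℕ) : ℝ)) + z) -
      psi h (s - (-2 * R + 2 * h * ((v / 2 : ℕ) : ℝ))) -
      g μ h (s - (-2 * R + 2 * h * ((v / 2 : ℕ) : ℝ)))) -
      θ ^ 2 * w μ h (s - (-2 * R + 2 * h * ((v / 2 : ℕ) : ℝ)))
  else 0

/-- Local time of `s` along the curve `κ`. -/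
noncomputable def A (μ : Measure ℝ) (s : ℕ → ℝ) (n : ℕ) (κ : ℕ → ℝ) : ℝ :=
  ∑ t ∈ range n, D μ (s t - κ t)

variable {μ : Measure ℝ} [IsProbabilityMeasure μ]

theorem sum_w_le (h1 : Integrable (fun z : ℝ => z) μ) (h0 : ∫ z, z ∂μ = 0)
    (s : ℕ → ℝ) (n : ℕ) (R M : ℝ)
    (hM : ∀ κ : ℕ → ℝ, Monotone κ → (∀ t, -2 * R ≤ κ t ∧ κ t < 2 * R) → A μ s n κ ≤ M)
    (h : ℝ) (hh : 0 < h) (N : ℕ) (hN : 2 * h * N ≤ 4 * R)
    {k : ℕ → ℕ} (hk : Monotone k) (hkN : ∀ t, k t < 2 * N) :
    ∑ t ∈ range n, w μ h (s t - (-2 * R + 2 * h * ((k t / 2 : ℕ) : ℝ))) ≤ 4 * (h * M) := by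
  have hc := continuous_D h1
  calc ∑ t ∈ range n, w μ h (s t - (-2 * R + 2 * h * ((k t / 2 : ℕ) : ℝ)))
      ≤ ∑ t ∈ range n, 4 * ∫ r in (0 : ℝ)..h,
          D μ (s t - (-2 * R + 2 * h * ((k t / 2 : ℕ) : ℝ)) - r) :=
        sum_le_sum fun t _ => w_le h1 h0 h _ hh.le
    _ = 4 * ∫ r in (0 : ℝ)..h, ∑ t ∈ range n,
          D μ (s t - (-2 * R + 2 * h * ((k t / 2 : ℕ) : ℝ)) - r) := by
        rw [← mul_sum, intervalIntegral.integral_finsetSum]
        intro i _
        exact Continuous.intervalIntegrable (by fun_prop) _ _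
    _ ≤ 4 * ∫ r in (0 : ℝ)..h, M := by
        apply mul_le_mul_of_nonneg_left _ (by norm_num)
        apply intervalIntegral.integral_mono_on hh.le
        · exact Continuous.intervalIntegrable (by fun_prop) _ _
        · exact Continuous.intervalIntegrable (by fun_prop) _ _
        · intro r hr
          have := hM (fun t => -2 * R + 2 * h * ((k t / 2 : ℕ) : ℝ) + r) ?_ ?_
          · unfold A at this
            simp only [← sub_sub] at this ⊢
            exact this
          · intro a b hab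
            have hkab : k a / 2 ≤ k b / 2 := Nat.div_le_div_right (hk hab)
            have hkab' : ((k a / 2 : ℕ) : ℝ) ≤ ((k b / 2 : ℕ) : ℝ) := by exact_mod_cast hkab
            change -2 * R + 2 * h * ((k a / 2 : ℕ) : ℝ) + r ≤
              -2 * R + 2 * h * ((k b / 2 : ℕ) : ℝ) + r
            have := mul_le_mul_of_nonneg_left hkab' (by positivity : (0 : ℝ) ≤ 2 * h)
            linarith
          · intro t
            have h3 : k t / 2 + 1 ≤ N := by
              have := hkN t
              omega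
            have h4 : ((k t / 2 : ℕ) : ℝ) + 1 ≤ N := by exact_mod_cast h3
            have h5 := mul_le_mul_of_nonneg_left h4 (by positivity : (0 : ℝ) ≤ 2 * h)
            have h6 : (0 : ℝ) ≤ 2 * h * ((k t / 2 : ℕ) : ℝ) := by positivity
            constructor
            · linarith [hr.1]
            · linarith [hr.2]
    _ = 4 * (h * M) := by simp

/-- One step of the chaining. -/
theorem chain_step (h1 : Integrable (fun z : ℝ => z) μ) (h0 : ∫ z, z ∂μ = 0)
    (s : ℕ → ℝ) (n : ℕ) (R M : ℝ) (hR : 0 < R)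
    (hM : ∀ κ : ℕ → ℝ, Monotone κ → (∀ t, -2 * R ≤ κ t ∧ κ t < 2 * R) → A μ s n κ ≤ M)
    (h : ℝ) (hh : 0 < h) (N : ℕ) (hN : 2 * h * N ≤ 4 * R)
    {k : ℕ → ℕ} (hk : Monotone k) (hkN : ∀ t, k t < 2 * N) (θ u : ℝ) (hθ : 0 < θ)
    (hgood : ∑ t ∈ range n, Q μ R h θ (k t) (s t) (s (t + 1) - s t) ≤ u) :
    A μ s n (fun t => -2 * R + h * (k t : ℝ)) ≤
      A μ s n (fun t => -2 * R + 2 * h * ((k t / 2 : ℕ) : ℝ)) + 2 * h * N + θ * (4 * (h * M)) +
        u / θ := by
  classical
  set y : ℕ → ℝ := fun t => -2 * R + 2 * h * ((k t / 2 : ℕ) : ℝ) with hy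
  have hw := sum_w_le h1 h0 s n R M hM h hh N hN hk hkN
  -- difference of local times
  have hdiff : A μ s n (fun t => -2 * R + h * (k t : ℝ)) = A μ s n y +
      ∑ t ∈ (range n).filter (fun t => Odd (k t)), g μ h (s t - y t) := by
    unfold A
    rw [sum_filter, ← sum_add_distrib]
    apply sum_congr rfl
    intro t _
    by_cases ho : Odd (k t)
    · rw [if_pos ho, g_eq h1]
      obtain ⟨m, hm⟩ := ho
      have hm2 : k t / 2 = m := by omega
      simp only [hy]
      rw [hm2, hm]
      push_cast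
      have e : s t - (-2 * R + h * (2 * (m : ℝ) + 1)) = s t - (-2 * R + 2 * h * m) - h := by ring
      rw [e]
      ring
    · rw [if_neg ho, add_zero]
      have he : k t = 2 * (k t / 2) := by
        have := Nat.not_odd_iff_even.1 ho
        obtain ⟨m, hm⟩ := this
        omega
      simp only [hy]
      have e : h * (k t : ℝ) = 2 * h * ((k t / 2 : ℕ) : ℝ) := by
        have : (k t : ℝ) = 2 * ((k t / 2 : ℕ) : ℝ) := by exact_mod_cast he
        rw [this]; ring
      rw [e]
  -- telescoping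
  have htel : ∑ t ∈ (range n).filter (fun t => Odd (k t)),
      (psi h (s (t + 1) - y t) - psi h (s t - y t)) ≤ 2 * h * N := by
    have hmap : ∀ t ∈ (range n).filter (fun t => Odd (k t)), k t / 2 ∈ range N := by
      intro t _
      have := hkN t
      rw [mem_range]
      omega
    rw [← sum_fiberwise_of_maps_to hmap]
    have : ∀ m ∈ range N, ∑ t ∈ ((range n).filter (fun t => Odd (k t))).filter
        (fun t => k t / 2 = m), (psi h (s (t + 1) - y t) - psi h (s t - y t)) ≤ 2 * h := by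
      intro m _
      have e1 : ((range n).filter (fun t => Odd (k t))).filter (fun t => k t / 2 = m) =
          (range n).filter (fun t => k t = 2 * m + 1) := by
        ext t
        simp only [mem_filter]
        constructor
        · rintro ⟨⟨h1, ⟨r, hr⟩⟩, h2⟩
          exact ⟨h1, by omega⟩
        · rintro ⟨h1, h2⟩
          exact ⟨⟨h1, ⟨m, h2⟩⟩, by omega⟩
      rw [e1]
      have e2 : ∑ t ∈ (range n).filter (fun t => k t = 2 * m + 1),
          (psi h (s (t + 1) - y t) - psi h (s t - y t)) =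
          ∑ t ∈ (range n).filter (fun t => k t = 2 * m + 1),
          (psi h (s (t + 1) - (-2 * R + 2 * h * m)) - psi h (s t - (-2 * R + 2 * h * m))) := by
        apply sum_congr rfl
        intro t ht
        have ht2 : k t / 2 = m := by
          have := (mem_filter.1 ht).2
          omega
        simp only [hy]
        rw [ht2]
      rw [e2]
      exact sum_fiber_le hk (2 * m + 1) n (fun t => psi h (s t - (-2 * R + 2 * h * m))) h
        (fun t => psi_le h _ hh.le) (fun t => neg_le_psi h _ hh.le) hh.le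
    calc _ ≤ ∑ m ∈ range N, 2 * h := sum_le_sum this
      _ = 2 * h * N := by rw [sum_const, card_range, nsmul_eq_mul]; ring
  -- unfold the good event
  have hgood' : -θ * (∑ t ∈ (range n).filter (fun t => Odd (k t)),
        (psi h (s (t + 1) - y t) - psi h (s t - y t))) +
      θ * (∑ t ∈ (range n).filter (fun t => Odd (k t)), g μ h (s t - y t)) -
      θ ^ 2 * (∑ t ∈ (range n).filter (fun t => Odd (k t)), w μ h (s t - y t)) ≤ u := by
    refine le_trans (le_of_eq ?_) hgood
    unfold Q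
    rw [← sum_filter, mul_sum, mul_sum, mul_sum, ← sum_add_distrib, ← sum_sub_distrib]
    apply sum_congr rfl
    intro t _
    have e : s t - (-2 * R + 2 * h * ((k t / 2 : ℕ) : ℝ)) + (s (t + 1) - s t) =
        s (t + 1) - (-2 * R + 2 * h * ((k t / 2 : ℕ) : ℝ)) := by ring
    rw [e]
    simp only [hy]
    ring
  have hwf : ∑ t ∈ (range n).filter (fun t => Odd (k t)), w μ h (s t - y t) ≤ 4 * (h * M) := by
    refine le_trans (sum_le_sum_of_subset_of_nonneg (filter_subset _ _) ?_) hw
    intro t _ _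
    exact w_nonneg _ _
  set G := ∑ t ∈ (range n).filter (fun t => Odd (k t)), g μ h (s t - y t)
  set W := ∑ t ∈ (range n).filter (fun t => Odd (k t)), w μ h (s t - y t)
  set Y := ∑ t ∈ (range n).filter (fun t => Odd (k t)),
        (psi h (s (t + 1) - y t) - psi h (s t - y t))
  rw [hdiff]
  have hG : G ≤ Y + θ * W + u / θ := by
    have e : θ * (Y + θ * W + u / θ) = θ * Y + θ ^ 2 * W + u := by
      field_simp
    have : θ * G ≤ θ * (Y + θ * W + u / θ) := by
      rw [e]; linarith
    exact le_of_mul_le_mul_left this hθ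
  have : θ * W ≤ θ * (4 * (h * M)) := mul_le_mul_of_nonneg_left hwf hθ.le
  linarith

/-- The full chaining, from the coarsest scale to scale `j`. -/
theorem chain (h1 : Integrable (fun z : ℝ => z) μ) (h2 : Integrable (fun z : ℝ => z ^ 2) μ)
    (h0 : ∫ z, z ∂μ = 0)
    (s : ℕ → ℝ) (n : ℕ) (R M L : ℝ) (J : ℕ) (hR : 0 < R) (hJ : 0 < J)
    (hs : ∀ t < n, |s t| ≤ R)
    (hM : ∀ κ : ℕ → ℝ, Monotone κ → (∀ t, -2 * R ≤ κ t ∧ κ t < 2 * R) → A μ s n κ ≤ M)
    (hgood : ∀ j < J, ∀ k : ℕ → ℕ, Monotone k → (∀ t, k t < 2 ^ (j + 1)) →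
      ∑ t ∈ range n, Q μ R (4 * R / 2 ^ (j + 1)) (1 / (8 * J * (4 * R / 2 ^ (j + 1))))
        (k t) (s t) (s (t + 1) - s t) ≤ 2 ^ (j + 2) * L) (j : ℕ) (hj : j ≤ J)
    (k : ℕ → ℕ) (hk : Monotone k) (hkj : ∀ t, k t < 2 ^ j) :
    A μ s n (fun t => -2 * R + 4 * R / 2 ^ j * (k t : ℝ)) ≤
      n * ((∫ z, z ^ 2 ∂μ) / (2 * R)) + j * (4 * R + M / (2 * J) + 64 * J * R * L) := by
  have hJ' : (0 : ℝ) < J := by exact_mod_cast hJ
  induction j generalizing k with
  | zero =>
    have hk0 : ∀ t, k t = 0 := by intro t; have := hkj t; simpa using this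
    have hσ : 0 ≤ ∫ z, z ^ 2 ∂μ := integral_nonneg fun z => sq_nonneg z
    unfold A
    simp only [hk0, Nat.cast_zero, mul_zero, add_zero, zero_mul]
    calc ∑ t ∈ range n, D μ (s t - -2 * R) ≤ ∑ t ∈ range n, (∫ z, z ^ 2 ∂μ) / (2 * R) := by
          apply sum_le_sum
          intro t ht
          have hst := abs_le.1 (hs t (mem_range.1 ht))
          have h3 : R ≤ s t - -2 * R := by linarith [hst.1]
          calc D μ (s t - -2 * R) ≤ D μ R := D_mono_pos h1 hR.le h3
            _ ≤ _ := D_tail h1 h2 h0 hR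
      _ = n * ((∫ z, z ^ 2 ∂μ) / (2 * R)) := by rw [sum_const, card_range, nsmul_eq_mul]
  | succ j ih =>
    set h : ℝ := 4 * R / 2 ^ (j + 1) with hh
    have hpos : 0 < h := by positivity
    have h2h : 2 * h = 4 * R / 2 ^ j := by
      rw [hh, pow_succ]; field_simp
    have hN : 2 * h * ((2 ^ j : ℕ) : ℝ) = 4 * R := by
      rw [h2h]; push_cast; field_simp
    set θ : ℝ := 1 / (8 * J * h) with hθ
    have hθpos : 0 < θ := by positivity
    have hk2 : Monotone (fun t => k t / 2) := fun a b hab => Nat.div_le_div_right (hk hab)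
    have hk2j : ∀ t, k t / 2 < 2 ^ j := by
      intro t
      have := hkj t
      rw [pow_succ] at this
      omega
    have ih' := ih (by omega) (fun t => k t / 2) hk2 hk2j
    have hkN : ∀ t, k t < 2 * 2 ^ j := by
      intro t
      have := hkj t
      rw [pow_succ] at this
      omega
    have step := chain_step h1 h0 s n R M hR hM h hpos (2 ^ j) hN.le hk hkN θ (2 ^ (j + 2) * L)
      hθpos (hgood j (by omega) k hk hkj)
    rw [hN] at step
    have e1 : θ * (4 * (h * M)) = M / (2 * J) := by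
      rw [hθ]; field_simp; ring
    have e2 : 2 ^ (j + 2) * L / θ = 64 * J * R * L := by
      rw [hθ, hh, pow_succ, pow_succ]; field_simp; ring
    rw [e1, e2] at step
    rw [← h2h] at ih'
    push_cast
    have : ((j : ℝ) + 1) * (4 * R + M / (2 * J) + 64 * J * R * L) =
        j * (4 * R + M / (2 * J) + 64 * J * R * L) +
        (4 * R + M / (2 * J) + 64 * J * R * L) := by ring
    rw [this]
    linarith

/-- The local time along any monotone curve, on the good event. -/
theorem A_bound (h1 : Integrable (fun z : ℝ => z) μ) (h2 : Integrable (fun z : ℝ => z ^ 2) μ)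
    (h0 : ∫ z, z ∂μ = 0)
    (s : ℕ → ℝ) (n : ℕ) (R L : ℝ) (J : ℕ) (hR : 0 < R) (hJ : 0 < J) (hnJ : n ≤ 2 ^ J)
    (hs : ∀ t < n, |s t| ≤ R)
    (hgood : ∀ j < J, ∀ k : ℕ → ℕ, Monotone k → (∀ t, k t < 2 ^ (j + 1)) →
      ∑ t ∈ range n, Q μ R (4 * R / 2 ^ (j + 1)) (1 / (8 * J * (4 * R / 2 ^ (j + 1))))
        (k t) (s t) (s (t + 1) - s t) ≤ 2 ^ (j + 2) * L)
    (κ : ℕ → ℝ) (hκ : Monotone κ) (hκR : ∀ t, -2 * R ≤ κ t ∧ κ t < 2 * R) :
    A μ s n κ ≤ 2 * (8 * R + n * ((∫ z, z ^ 2 ∂μ) / (2 * R)) + J * (4 * R + 64 * J * R * L)) := by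
  have hJ' : (0 : ℝ) < J := by exact_mod_cast hJ
  set S : Set ℝ := {a | ∃ κ : ℕ → ℝ, Monotone κ ∧ (∀ t, -2 * R ≤ κ t ∧ κ t < 2 * R) ∧
    a = A μ s n κ} with hS
  have hbdd : BddAbove S := by
    refine ⟨n * D μ 0, ?_⟩
    rintro a ⟨κ, -, -, rfl⟩
    unfold A
    calc ∑ t ∈ range n, D μ (s t - κ t) ≤ ∑ t ∈ range n, D μ 0 :=
          sum_le_sum fun t _ => D_le_D_zero h1 _
      _ = n * D μ 0 := by rw [sum_const, card_range, nsmul_eq_mul]
  have hne : S.Nonempty := ⟨_, fun _ => 0, monotone_const, fun _ => ⟨by linarith, by linarith⟩, rfl⟩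
  set M := sSup S with hMdef
  have hM : ∀ κ : ℕ → ℝ, Monotone κ → (∀ t, -2 * R ≤ κ t ∧ κ t < 2 * R) → A μ s n κ ≤ M :=
    fun κ h h' => le_csSup hbdd ⟨κ, h, h', rfl⟩
  have hmain : ∀ κ : ℕ → ℝ, Monotone κ → (∀ t, -2 * R ≤ κ t ∧ κ t < 2 * R) →
      A μ s n κ ≤ 8 * R + n * ((∫ z, z ^ 2 ∂μ) / (2 * R)) +
        J * (4 * R + M / (2 * J) + 64 * J * R * L) := by
    intro κ hκ hκR
    set h : ℝ := 4 * R / 2 ^ J with hh
    have hpos : 0 < h := by positivity
    set k : ℕ → ℕ := fun t => ⌊(κ t + 2 * R) / h⌋₊ with hk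
    have hkm : Monotone k := by
      intro a b hab
      apply Nat.floor_le_floor
      have := hκ hab
      gcongr
    have hnn : ∀ t, 0 ≤ (κ t + 2 * R) / h := by
      intro t
      apply div_nonneg _ hpos.le
      linarith [(hκR t).1]
    have hkJ : ∀ t, k t < 2 ^ J := by
      intro t
      rw [hk]
      simp only
      rw [Nat.floor_lt (hnn t), div_lt_iff₀ hpos]
      have e : ((2 ^ J : ℕ) : ℝ) * h = 4 * R := by
        rw [hh]; push_cast; field_simp
      rw [e]
      linarith [(hκR t).2]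
    have hc := chain h1 h2 h0 s n R M L J hR hJ hs hM hgood J le_rfl k hkm hkJ
    have hround : A μ s n κ ≤ A μ s n (fun t => -2 * R + 4 * R / 2 ^ J * (k t : ℝ)) + 8 * R := by
      have : ∀ t ∈ range n, D μ (s t - κ t) ≤
          D μ (s t - (-2 * R + 4 * R / 2 ^ J * (k t : ℝ))) + 2 * h := by
        intro t _
        have hl := D_lip (μ := μ) h1 (s t - κ t) (s t - (-2 * R + 4 * R / 2 ^ J * (k t : ℝ)))
        have h3 : |s t - κ t - (s t - (-2 * R + 4 * R / 2 ^ J * (k t : ℝ)))| ≤ h := by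
          rw [← hh]
          have hf1 := Nat.floor_le (hnn t)
          have hf2 := Nat.lt_floor_add_one ((κ t + 2 * R) / h)
          rw [le_div_iff₀ hpos] at hf1
          rw [div_lt_iff₀ hpos] at hf2
          have hf1' : (k t : ℝ) * h ≤ κ t + 2 * R := hf1
          have hf2' : κ t + 2 * R < ((k t : ℝ) + 1) * h := hf2
          rw [abs_le]
          constructor <;> linarith
        have := (abs_le.1 hl).2
        linarith
      unfold A
      calc ∑ t ∈ range n, D μ (s t - κ t) ≤ ∑ t ∈ range n,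
            (D μ (s t - (-2 * R + 4 * R / 2 ^ J * (k t : ℝ))) + 2 * h) := sum_le_sum this
        _ = ∑ t ∈ range n, D μ (s t - (-2 * R + 4 * R / 2 ^ J * (k t : ℝ))) + n * (2 * h) := by
            rw [sum_add_distrib, sum_const, card_range, nsmul_eq_mul]
        _ ≤ _ := by
            have h5 : (n : ℝ) ≤ 2 ^ J := by exact_mod_cast hnJ
            have h6 : (n : ℝ) * (2 * h) ≤ 2 ^ J * (2 * h) :=
              mul_le_mul_of_nonneg_right h5 (by positivity)
            have h7 : (2 : ℝ) ^ J * (2 * h) = 8 * R := by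
              rw [hh]; field_simp; ring
            linarith
    linarith
  have hle : M ≤ 8 * R + n * ((∫ z, z ^ 2 ∂μ) / (2 * R)) +
        J * (4 * R + M / (2 * J) + 64 * J * R * L) := by
    apply csSup_le hne
    rintro a ⟨κ, h, h', rfl⟩
    exact hmain κ h h'
  have e : J * (4 * R + M / (2 * J) + 64 * J * R * L) =
      J * (4 * R + 64 * J * R * L) + M / 2 := by
    field_simp
    ring
  rw [e] at hle
  have := hM κ hκ hκR
  linarith

/-- A weakly increasing subsequence is contained in a monotone curve. -/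
theorem card_mul_le (h1 : Integrable (fun z : ℝ => z) μ)
    (h0 : ∫ z, z ∂μ = 0) (s : ℕ → ℝ) (n : ℕ) (R B : ℝ) (hR : 0 < R)
    (hs : ∀ t < n, |s t| ≤ R)
    (hB : ∀ κ : ℕ → ℝ, Monotone κ → (∀ t, -2 * R ≤ κ t ∧ κ t < 2 * R) → A μ s n κ ≤ B)
    (T : Finset ℕ) (hT : T ⊆ range n) (hmono : MonotoneOn s T) :
    (T.card : ℝ) * D μ 0 ≤ B := by
  obtain ⟨κ₀, hκ₀, hκ₀T⟩ := hmono.exists_monotone_extension
    ((T.finite_toSet.image s).bddBelow) ((T.finite_toSet.image s).bddAbove)
  have hκ : Monotone (fun t => max (-R) (min R (κ₀ t))) := by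
    intro a b hab
    have := hκ₀ hab
    simp only
    gcongr
  have hb := hB _ hκ (by
    intro t
    constructor
    · exact le_trans (by linarith) (le_max_left _ _)
    · exact lt_of_le_of_lt (max_le (by linarith) (min_le_left _ _)) (by linarith : R < 2 * R))
  refine le_trans ?_ hb
  unfold A
  calc (T.card : ℝ) * D μ 0 = ∑ t ∈ T, D μ 0 := by rw [sum_const, nsmul_eq_mul]
    _ = ∑ t ∈ T, D μ (s t - max (-R) (min R (κ₀ t))) := by
        apply sum_congr rfl
        intro t ht
        have e1 : s t = κ₀ t := hκ₀T ht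
        have e2 := abs_le.1 (hs t (mem_range.1 (hT ht)))
        rw [← e1, min_eq_right e2.2, max_eq_right e2.1, sub_self]
    _ ≤ _ := sum_le_sum_of_subset_of_nonneg hT fun t _ _ => D_nonneg h1 h0 _

end Pool.Agent.LISWalk
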