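import Mathlib

set_option autoImplicit false
set_option linter.unusedSectionVars false

/-!
Independence lemmas for partial sums of i.i.d. random variables: exponential supermartingale
bound and Kolmogorov's maximal inequality.
-/

namespace Pool.Agent.LISWalk

open MeasureTheory ProbabilityTheory
open scoped ENNReal

variable {Ω : Type*} [MeasurableSpace Ω] {P : Measure Ω} [IsProbabilityMeasure P]

/-- Extend a vector on `Finset.range t` by zero. -/
noncomputable def ext0 (t : ℕ) (y : Finset.range t → ℝ) (i : ℕ) : ℝ :=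
  if h : i ∈ Finset.range t then y ⟨i, h⟩ else 0

theorem measurable_ext0 (t : ℕ) : Measurable (ext0 t) := by
  rw [measurable_pi_iff]
  intro i
  unfold ext0
  by_cases h : i ∈ Finset.range t
  · simp only [h, dite_true]
    exact measurable_pi_apply _
  · simp only [h, dite_false]
    exact measurable_const

theorem key_indep {X : ℕ → Ω → ℝ} (hX : ∀ i, Measurable (X i)) (hind : iIndepFun X P)
    (t : ℕ) (a : (ℕ → ℝ) → ℝ≥0∞) (ha : Measurable a)
    (hdep : ∀ x y : ℕ → ℝ, (∀ i < t, x i = y i) → a x = a y)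
    (φ : ℝ → ℝ → ℝ≥0∞) (hφ : Measurable (Function.uncurry φ)) :
    ∫⁻ ω, a (fun i => X i ω) * φ (∑ i ∈ Finset.range t, X i ω) (X t ω) ∂P =
      ∫⁻ ω, a (fun i => X i ω) *
        ∫⁻ z, φ (∑ i ∈ Finset.range t, X i ω) z ∂(P.map (X t)) ∂P := by
  have hZ : Measurable (fun (ω : Ω) (i : Finset.range t) => X i ω) :=
    measurable_pi_iff.2 fun i => hX i
  have hI : IndepFun (fun (ω : Ω) (i : Finset.range t) => X i ω) (X t) P := by
    have h1 := hind.indepFun_finset (Finset.range t) {t} (by simp) hX
    have hm : Measurable (fun y : ({t} : Finset ℕ) → ℝ => y ⟨t, Finset.mem_singleton_self t⟩) :=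
      measurable_pi_apply _
    exact h1.comp measurable_id hm
  have hmap := (indepFun_iff_map_prod_eq_prod_map_map hZ.aemeasurable (hX t).aemeasurable).1 hI
  let G : (Finset.range t → ℝ) × ℝ → ℝ≥0∞ := fun p =>
    a (ext0 t p.1) * φ (∑ i ∈ Finset.range t, ext0 t p.1 i) p.2
  have hG : Measurable G := by
    apply Measurable.mul
    · exact ha.comp ((measurable_ext0 t).comp measurable_fst)
    · have hs : Measurable (fun p : (Finset.range t → ℝ) × ℝ =>
          ∑ i ∈ Finset.range t, ext0 t p.1 i) := by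
        apply Finset.measurable_fun_sum
        intro i _
        exact (measurable_pi_apply i).comp ((measurable_ext0 t).comp measurable_fst)
      exact hφ.comp (hs.prodMk measurable_snd)
  have hext : ∀ ω, ∀ i < t, ext0 t (fun i => X i ω) i = X i ω := by
    intro ω i hi
    unfold ext0
    rw [dif_pos (Finset.mem_range.2 hi)]
  have haX : ∀ ω, a (ext0 t (fun i => X i ω)) = a (fun i => X i ω) := by
    intro ω
    exact hdep _ _ (hext ω)
  have hsX : ∀ ω, ∑ i ∈ Finset.range t, ext0 t (fun i => X i ω) i =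
      ∑ i ∈ Finset.range t, X i ω := by
    intro ω
    apply Finset.sum_congr rfl
    intro i hi
    exact hext ω i (Finset.mem_range.1 hi)
  calc ∫⁻ ω, a (fun i => X i ω) * φ (∑ i ∈ Finset.range t, X i ω) (X t ω) ∂P
      = ∫⁻ ω, G ((fun i => X i ω), X t ω) ∂P := by
        apply lintegral_congr
        intro ω
        simp only [G]
        rw [haX, hsX]
    _ = ∫⁻ p, G p ∂(P.map (fun ω => ((fun (i : Finset.range t) => X i ω), X t ω))) := by
        rw [lintegral_map hG (hZ.prodMk (hX t))]
    _ = ∫⁻ p, G p ∂((P.map (fun ω (i : Finset.range t) => X i ω)).prod (P.map (X t))) := by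
        rw [hmap]
    _ = ∫⁻ y, ∫⁻ z, G (y, z) ∂(P.map (X t)) ∂(P.map (fun ω (i : Finset.range t) => X i ω)) := by
        have : SFinite (P.map (X t)) := inferInstance
        rw [lintegral_prod _ hG.aemeasurable]
    _ = ∫⁻ ω, ∫⁻ z, G ((fun (i : Finset.range t) => X i ω), z) ∂(P.map (X t)) ∂P := by
        rw [lintegral_map hG.lintegral_prod_right' hZ]
    _ = _ := by
        apply lintegral_congr
        intro ω
        rw [← lintegral_const_mul]
        · apply lintegral_congr
          intro z
          simp only [G]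
          rw [haX, hsX]
        · exact hφ.comp (measurable_const.prodMk measurable_id)

theorem measurable_partial (t : ℕ) : Measurable (fun x : ℕ → ℝ => ∑ i ∈ Finset.range t, x i) :=
  Finset.measurable_fun_sum _ fun i _ => measurable_pi_apply i

theorem exp_super {X : ℕ → Ω → ℝ} (hX : ∀ i, Measurable (X i)) (hind : iIndepFun X P)
    (q : ℕ → ℝ → ℝ → ℝ) (hq : ∀ t, Measurable (Function.uncurry (q t)))
    (hq1 : ∀ t s, ∫⁻ z, ENNReal.ofReal (Real.exp (q t s z)) ∂(P.map (X t)) ≤ 1) (n : ℕ) :
    ∫⁻ ω, ENNReal.ofReal (Real.exp (∑ t ∈ Finset.range n,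
      q t (∑ i ∈ Finset.range t, X i ω) (X t ω))) ∂P ≤ 1 := by
  induction n with
  | zero => simp
  | succ n ih =>
    have hm : Measurable (fun x : ℕ → ℝ => ∑ t ∈ Finset.range n,
        q t (∑ i ∈ Finset.range t, x i) (x t)) := by
      apply Finset.measurable_fun_sum
      intro t _
      exact (hq t).comp ((measurable_partial t).prodMk (measurable_pi_apply t))
    have key := key_indep hX hind n
      (fun x => ENNReal.ofReal (Real.exp (∑ t ∈ Finset.range n,
        q t (∑ i ∈ Finset.range t, x i) (x t))))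
      (ENNReal.measurable_ofReal.comp (Real.measurable_exp.comp hm))
      (by
        intro x y hxy
        have : ∑ t ∈ Finset.range n, q t (∑ i ∈ Finset.range t, x i) (x t) =
            ∑ t ∈ Finset.range n, q t (∑ i ∈ Finset.range t, y i) (y t) := by
          apply Finset.sum_congr rfl
          intro t ht
          have ht := Finset.mem_range.1 ht
          rw [hxy t ht]
          congr 1
          apply Finset.sum_congr rfl
          intro i hi
          exact hxy i ((Finset.mem_range.1 hi).trans ht)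
        simp only [this])
      (fun s z => ENNReal.ofReal (Real.exp (q n s z)))
      (ENNReal.measurable_ofReal.comp (Real.measurable_exp.comp (hq n)))
    calc ∫⁻ ω, ENNReal.ofReal (Real.exp (∑ t ∈ Finset.range (n + 1),
          q t (∑ i ∈ Finset.range t, X i ω) (X t ω))) ∂P
        = ∫⁻ ω, ENNReal.ofReal (Real.exp (∑ t ∈ Finset.range n,
            q t (∑ i ∈ Finset.range t, X i ω) (X t ω))) *
            ENNReal.ofReal (Real.exp (q n (∑ i ∈ Finset.range n, X i ω) (X n ω))) ∂P := by
          apply lintegral_congr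
          intro ω
          rw [Finset.sum_range_succ, Real.exp_add, ENNReal.ofReal_mul (Real.exp_pos _).le]
      _ = _ := key
      _ ≤ ∫⁻ ω, ENNReal.ofReal (Real.exp (∑ t ∈ Finset.range n,
            q t (∑ i ∈ Finset.range t, X i ω) (X t ω))) * 1 ∂P := by
          apply lintegral_mono
          intro ω
          exact mul_le_mul_right (hq1 n _) _
      _ ≤ 1 := by simpa using ih

theorem exp_tail {X : ℕ → Ω → ℝ} (hX : ∀ i, Measurable (X i)) (hind : iIndepFun X P)
    (q : ℕ → ℝ → ℝ → ℝ) (hq : ∀ t, Measurable (Function.uncurry (q t)))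
    (hq1 : ∀ t s, ∫⁻ z, ENNReal.ofReal (Real.exp (q t s z)) ∂(P.map (X t)) ≤ 1) (n : ℕ)
    (u : ℝ) :
    P {ω | u ≤ ∑ t ∈ Finset.range n, q t (∑ i ∈ Finset.range t, X i ω) (X t ω)} ≤
      ENNReal.ofReal (Real.exp (-u)) := by
  have h1 := exp_super hX hind q hq hq1 n
  have hm : Measurable (fun ω => ∑ t ∈ Finset.range n,
      q t (∑ i ∈ Finset.range t, X i ω) (X t ω)) := by
    apply Finset.measurable_fun_sum
    intro t _
    have hs : Measurable (fun ω => ∑ i ∈ Finset.range t, X i ω) :=
      Finset.measurable_fun_sum _ fun i _ => hX i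
    exact (hq t).comp (hs.prodMk (hX t))
  have h2 := mul_meas_ge_le_lintegral (μ := P)
    (f := fun ω => ENNReal.ofReal (Real.exp (∑ t ∈ Finset.range n,
      q t (∑ i ∈ Finset.range t, X i ω) (X t ω))))
    (ENNReal.measurable_ofReal.comp (Real.measurable_exp.comp hm)) (ENNReal.ofReal (Real.exp u))
  have h3 : {ω | u ≤ ∑ t ∈ Finset.range n, q t (∑ i ∈ Finset.range t, X i ω) (X t ω)} ⊆
      {ω | ENNReal.ofReal (Real.exp u) ≤ ENNReal.ofReal (Real.exp (∑ t ∈ Finset.range n,
      q t (∑ i ∈ Finset.range t, X i ω) (X t ω)))} := by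
    intro ω hω
    exact ENNReal.ofReal_le_ofReal (Real.exp_le_exp.2 hω)
  have h4 : ENNReal.ofReal (Real.exp u) *
      P {ω | u ≤ ∑ t ∈ Finset.range n, q t (∑ i ∈ Finset.range t, X i ω) (X t ω)} ≤ 1 :=
    (mul_le_mul_right (measure_mono h3) _).trans (h2.trans h1)
  have h5 : ENNReal.ofReal (Real.exp (-u)) * ENNReal.ofReal (Real.exp u) = 1 := by
    rw [← ENNReal.ofReal_mul (Real.exp_pos _).le, ← Real.exp_add]
    simp
  calc P {ω | u ≤ ∑ t ∈ Finset.range n, q t (∑ i ∈ Finset.range t, X i ω) (X t ω)}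
      = ENNReal.ofReal (Real.exp (-u)) * (ENNReal.ofReal (Real.exp u) *
        P {ω | u ≤ ∑ t ∈ Finset.range n, q t (∑ i ∈ Finset.range t, X i ω) (X t ω)}) := by
        rw [← mul_assoc, h5, one_mul]
    _ ≤ ENNReal.ofReal (Real.exp (-u)) * 1 := mul_le_mul_right h4 _
    _ = _ := mul_one _

/-- The walk stays in `[-R, R]` up to time `n - 1`. -/
def Good (R : ℝ) (n : ℕ) (x : ℕ → ℝ) : Prop := ∀ k < n, |∑ i ∈ Finset.range k, x i| ≤ R

theorem measurableSet_good (R : ℝ) (n : ℕ) : MeasurableSet {x : ℕ → ℝ | Good R n x} := by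
  have : {x : ℕ → ℝ | Good R n x} =
      ⋂ k ∈ Finset.range n, {x : ℕ → ℝ | |∑ i ∈ Finset.range k, x i| ≤ R} := by
    ext x; simp [Good]
  rw [this]
  apply Finset.measurableSet_biInter
  intro k _
  have hm : Measurable (fun x : ℕ → ℝ => |∑ i ∈ Finset.range k, x i|) :=
    (measurable_partial k).abs
  exact hm measurableSet_Iic

open Classical in
/-- The functional used in the proof of the maximal inequality. -/
noncomputable def vfun (R : ℝ) (n : ℕ) (x : ℕ → ℝ) : ℝ≥0∞ :=
  if Good R n x then ENNReal.ofReal ((∑ i ∈ Finset.range n, x i) ^ 2) else ENNReal.ofReal (R ^ 2)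

open Classical in
/-- Indicator of `Good`. -/
noncomputable def afun (R : ℝ) (n : ℕ) (x : ℕ → ℝ) : ℝ≥0∞ := if Good R n x then 1 else 0

open Classical in
/-- `R ^ 2` times the indicator of the complement of `Good`. -/
noncomputable def bfun (R : ℝ) (n : ℕ) (x : ℕ → ℝ) : ℝ≥0∞ :=
  if Good R n x then 0 else ENNReal.ofReal (R ^ 2)

theorem measurable_afun (R : ℝ) (n : ℕ) : Measurable (afun R n) :=
  Measurable.ite (measurableSet_good R n) measurable_const measurable_const

theorem measurable_bfun (R : ℝ) (n : ℕ) : Measurable (bfun R n) :=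
  Measurable.ite (measurableSet_good R n) measurable_const measurable_const

theorem vfun_succ (R : ℝ) (n : ℕ) (x : ℕ → ℝ) : vfun R (n + 1) x =
    afun R (n + 1) x * ENNReal.ofReal ((∑ i ∈ Finset.range n, x i + x n) ^ 2) +
      bfun R (n + 1) x := by
  by_cases h : Good R (n + 1) x
  · rw [vfun, afun, bfun, if_pos h, if_pos h, if_pos h, Finset.sum_range_succ, one_mul, add_zero]
  · rw [vfun, afun, bfun, if_neg h, if_neg h, if_neg h, zero_mul, zero_add]

theorem vfun_step (R : ℝ) (hR : 0 ≤ R) (n : ℕ) (x : ℕ → ℝ) (V : ℝ≥0∞) :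
    afun R (n + 1) x * (ENNReal.ofReal ((∑ i ∈ Finset.range n, x i) ^ 2) + V) +
      bfun R (n + 1) x ≤ vfun R n x + V := by
  by_cases h : Good R (n + 1) x
  · have h' : Good R n x := fun k hk => h k (by omega)
    rw [vfun, afun, bfun, if_pos h, if_pos h, if_pos h', one_mul, add_zero]
  · rw [afun, bfun, if_neg h, if_neg h, zero_mul, zero_add]
    by_cases h' : Good R n x
    · rw [vfun, if_pos h']
      have hn : R < |∑ i ∈ Finset.range n, x i| := by
        by_contra hcon
        apply h
        intro k hk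
        rcases Nat.lt_succ_iff_lt_or_eq.1 hk with h1 | h1
        · exact h' k h1
        · rw [h1]; exact not_lt.1 hcon
      refine le_trans (ENNReal.ofReal_le_ofReal ?_) le_self_add
      rw [← sq_abs (∑ i ∈ Finset.range n, x i)]
      exact pow_le_pow_left₀ hR hn.le 2
    · rw [vfun, if_neg h']
      exact le_self_add

theorem kolmogorov_aux {X : ℕ → Ω → ℝ} (hX : ∀ i, Measurable (X i)) (hind : iIndepFun X P)
    (V : ℝ≥0∞)
    (hV : ∀ t s, ∫⁻ z, ENNReal.ofReal ((s + z) ^ 2) ∂(P.map (X t)) = ENNReal.ofReal (s ^ 2) + V)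
    (R : ℝ) (hR : 0 ≤ R) (n : ℕ) :
    ∫⁻ ω, vfun R n (fun i => X i ω) ∂P ≤ n * V := by
  induction n with
  | zero =>
    have h0 : ∀ ω, vfun R 0 (fun i => X i ω) = 0 := by
      intro ω
      have hG : Good R 0 (fun i => X i ω) := fun k hk => absurd hk (Nat.not_lt_zero k)
      rw [vfun, if_pos hG]
      simp
    simp [h0]
  | succ n ih =>
    have hdep : ∀ x y : ℕ → ℝ, (∀ i < n, x i = y i) → afun R (n + 1) x = afun R (n + 1) y := by
      intro x y hxy
      have hk : ∀ k < n + 1, ∑ i ∈ Finset.range k, x i = ∑ i ∈ Finset.range k, y i := by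
        intro k hk
        apply Finset.sum_congr rfl
        intro i hi
        exact hxy i (by have := Finset.mem_range.1 hi; omega)
      have hiff : Good R (n + 1) x ↔ Good R (n + 1) y := by
        constructor
        · intro h k hk'; rw [← hk k hk']; exact h k hk'
        · intro h k hk'; rw [hk k hk']; exact h k hk'
      by_cases h : Good R (n + 1) x
      · rw [afun, afun, if_pos h, if_pos (hiff.1 h)]
      · rw [afun, afun, if_neg h, if_neg (fun h' => h (hiff.2 h'))]
    have key := key_indep hX hind n (afun R (n + 1)) (measurable_afun R (n + 1)) hdep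
      (fun s z => ENNReal.ofReal ((s + z) ^ 2))
      (by
        apply ENNReal.measurable_ofReal.comp
        apply Continuous.measurable
        fun_prop)
    have hmX : Measurable (fun ω i => X i ω) := measurable_pi_iff.2 hX
    have hma : Measurable (fun ω => afun R (n + 1) (fun i => X i ω)) :=
      (measurable_afun R (n + 1)).comp hmX
    have hmb : Measurable (fun ω => bfun R (n + 1) (fun i => X i ω)) :=
      (measurable_bfun R (n + 1)).comp hmX
    calc ∫⁻ ω, vfun R (n + 1) (fun i => X i ω) ∂P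
        = ∫⁻ ω, (afun R (n + 1) (fun i => X i ω) * ENNReal.ofReal
            ((∑ i ∈ Finset.range n, X i ω + X n ω) ^ 2) +
            bfun R (n + 1) (fun i => X i ω)) ∂P :=
          lintegral_congr fun ω => vfun_succ R n _
      _ = ∫⁻ ω, afun R (n + 1) (fun i => X i ω) * ENNReal.ofReal
            ((∑ i ∈ Finset.range n, X i ω + X n ω) ^ 2) ∂P +
            ∫⁻ ω, bfun R (n + 1) (fun i => X i ω) ∂P := lintegral_add_right _ hmb
      _ = ∫⁻ ω, afun R (n + 1) (fun i => X i ω) *
            (ENNReal.ofReal ((∑ i ∈ Finset.range n, X i ω) ^ 2) + V) ∂P +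
            ∫⁻ ω, bfun R (n + 1) (fun i => X i ω) ∂P := by
          rw [key]
          congr 1
          apply lintegral_congr
          intro ω
          rw [hV]
      _ = ∫⁻ ω, (afun R (n + 1) (fun i => X i ω) *
            (ENNReal.ofReal ((∑ i ∈ Finset.range n, X i ω) ^ 2) + V) +
            bfun R (n + 1) (fun i => X i ω)) ∂P := (lintegral_add_right _ hmb).symm
      _ ≤ ∫⁻ ω, (vfun R n (fun i => X i ω) + V) ∂P :=
          lintegral_mono fun ω => vfun_step R hR n _ V
      _ = ∫⁻ ω, vfun R n (fun i => X i ω) ∂P + V := by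
          rw [lintegral_add_right _ measurable_const]
          simp
      _ ≤ n * V + V := by gcongr
      _ = (n + 1 : ℕ) * V := by push_cast; ring

theorem kolmogorov {X : ℕ → Ω → ℝ} (hX : ∀ i, Measurable (X i)) (hind : iIndepFun X P)
    (V : ℝ≥0∞)
    (hV : ∀ t s, ∫⁻ z, ENNReal.ofReal ((s + z) ^ 2) ∂(P.map (X t)) = ENNReal.ofReal (s ^ 2) + V)
    (R : ℝ) (hR : 0 ≤ R) (n : ℕ) :
    ENNReal.ofReal (R ^ 2) * P {ω | ¬ Good R n (fun i => X i ω)} ≤ n * V := by
  classical
  have h1 := kolmogorov_aux hX hind V hV R hR n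
  have hmX : Measurable (fun ω i => X i ω) := measurable_pi_iff.2 hX
  have hmeas : MeasurableSet {ω | ¬ Good R n (fun i => X i ω)} :=
    (hmX (measurableSet_good R n)).compl
  calc ENNReal.ofReal (R ^ 2) * P {ω | ¬ Good R n (fun i => X i ω)}
      = ∫⁻ ω, Set.indicator {ω | ¬ Good R n (fun i => X i ω)}
          (fun _ => ENNReal.ofReal (R ^ 2)) ω ∂P := by
        rw [lintegral_indicator_const hmeas]
    _ ≤ ∫⁻ ω, vfun R n (fun i => X i ω) ∂P := by
        apply lintegral_mono
        intro ω
        by_cases h : Good R n (fun i => X i ω)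
        · rw [Set.indicator_of_notMem (by simpa using h)]
          exact bot_le
        · rw [Set.indicator_of_mem (by simpa using h)]
          change _ ≤ vfun R n (fun i => X i ω)
          rw [vfun, if_neg h]
    _ ≤ n * V := h1

end Pool.Agent.LISWalk
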