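import Pool.Agent.MP_05a99f_pr.Chain
import Pool.Agent.MP_05a99f_pr.Walk

set_option autoImplicit false
set_option linter.unusedSectionVars false

/-!
Union bound over monotone curves and the tail estimate.
-/

namespace Pool.Agent.LISWalk

open MeasureTheory ProbabilityTheory Finset
open scoped ENNReal

theorem measurable_Q {μ : Measure ℝ} [IsProbabilityMeasure μ]
    (h1 : Integrable (fun z : ℝ => z) μ) (R h θ : ℝ) (v : ℕ) :
    Measurable (Function.uncurry (Q μ R h θ v)) := by
  unfold Q Function.uncurry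
  by_cases hv : Odd v
  · simp only [if_pos hv]
    have hc := (continuous_psi h).measurable
    have hg := (continuous_g (μ := μ) h1 h).measurable
    have hw := measurable_w (μ := μ) h
    have m1 : Measurable (fun p : ℝ × ℝ => p.1 - (-2 * R + 2 * h * ((v / 2 : ℕ) : ℝ))) := by
      fun_prop
    have m2 : Measurable (fun p : ℝ × ℝ => p.1 - (-2 * R + 2 * h * ((v / 2 : ℕ) : ℝ)) + p.2) := by
      fun_prop
    exact (((((hc.comp m2).sub (hc.comp m1)).sub (hg.comp m1)).const_mul (-θ))).sub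
      ((hw.comp m1).const_mul (θ ^ 2))
  · simp only [if_neg hv]
    exact measurable_const

theorem lintegral_Q {μ : Measure ℝ} [IsProbabilityMeasure μ]
    (R h θ : ℝ) (hh : 0 ≤ h) (hθ : 0 ≤ θ) (hθh : θ * (2 * h) ≤ 1) (v : ℕ) (s : ℝ) :
    ∫⁻ z, ENNReal.ofReal (Real.exp (Q μ R h θ v s z)) ∂μ ≤ 1 := by
  unfold Q
  by_cases hv : Odd v
  · simp only [if_pos hv]
    exact exp_moment h _ θ hh hθ hθh
  · simp only [if_neg hv]
    simp

/-- The monotone curve with thresholds `τ`. -/
def kτ {m n : ℕ} (τ : Fin m → Fin (n + 1)) (t : ℕ) : ℕ :=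
  (univ.filter (fun v : Fin m => (τ v : ℕ) ≤ t)).card

/-- Every monotone curve with values less than `m` comes from thresholds. -/
theorem exists_τ {m n : ℕ} {k : ℕ → ℕ} (hk : Monotone k) (hkm : ∀ t, k t < m) :
    ∃ τ : Fin m → Fin (n + 1), ∀ t < n, kτ τ t = k t := by
  refine ⟨fun v => ⟨((range n).filter (fun t => k t ≤ v)).card,
    Nat.lt_succ_of_le (card_filter_le' _ n)⟩, fun t ht => ?_⟩
  unfold kτ
  have : (univ.filter (fun v : Fin m => ((range n).filter (fun t => k t ≤ v)).card ≤ t)) =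
      univ.filter (fun v : Fin m => (v : ℕ) < k t) := by
    ext v
    simp only [mem_filter, mem_univ, true_and]
    have h2 : ∀ a b, a ≤ b → k b ≤ v → k a ≤ v := fun a b hab hb => le_trans (hk hab) hb
    have e2 := lt_card_filter_iff (fun t => k t ≤ v) h2 ht
    constructor
    · intro h
      by_contra hcon
      exact absurd (e2.2 (not_lt.1 hcon)) (not_lt.2 h)
    · intro h
      by_contra hcon
      have := e2.1 (not_le.1 hcon)
      omega
  simp only
  rw [this, Fin.card_filter_val_lt]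
  exact min_eq_right (hkm t).le

variable {Ω : Type*} [MeasurableSpace Ω] {P : Measure Ω} [IsProbabilityMeasure P]

/-- Tail estimate for the local time along monotone curves. -/
theorem tail_bound {X : ℕ → Ω → ℝ} (hX : ∀ i, Measurable (X i)) (hind : iIndepFun X P)
    (μ : Measure ℝ) [IsProbabilityMeasure μ] (hμ : ∀ t, P.map (X t) = μ)
    (h1 : Integrable (fun z : ℝ => z) μ) (h2 : Integrable (fun z : ℝ => z ^ 2) μ)
    (h0 : ∫ z, z ∂μ = 0) (n J : ℕ) (hJ : 0 < J) (hnJ : n ≤ 2 ^ J) (R : ℝ) (hR : 0 < R) :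
    P {ω | ¬ ∀ T ⊆ range n, MonotoneOn (fun k => ∑ i ∈ range k, X i ω) (T : Set ℕ) →
      (T.card : ℝ) * D μ 0 ≤ 2 * (8 * R + n * ((∫ z, z ^ 2 ∂μ) / (2 * R)) +
        J * (4 * R + 64 * J * R * Real.log (n + 1)))} ≤
      ENNReal.ofReal (n * (∫ z, z ^ 2 ∂μ) / R ^ 2) +
        J * ENNReal.ofReal (Real.exp (-(2 * Real.log (n + 1)))) := by
  classical
  set L := Real.log (n + 1) with hL
  have hL0 : 0 ≤ L := Real.log_nonneg (by linarith [(Nat.cast_nonneg n : (0 : ℝ) ≤ n)])
  have hJ' : (0 : ℝ) < J := by exact_mod_cast hJ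
  let Bad : (j : ℕ) → (Fin (2 ^ (j + 1)) → Fin (n + 1)) → Set Ω := fun j τ =>
    {ω | 2 ^ (j + 2) * L ≤ ∑ t ∈ range n, Q μ R (4 * R / 2 ^ (j + 1))
      (1 / (8 * J * (4 * R / 2 ^ (j + 1)))) (kτ τ t) (∑ i ∈ range t, X i ω) (X t ω)}
  have hsub : {ω | ¬ ∀ T ⊆ range n, MonotoneOn (fun k => ∑ i ∈ range k, X i ω) (T : Set ℕ) →
      (T.card : ℝ) * D μ 0 ≤ 2 * (8 * R + n * ((∫ z, z ^ 2 ∂μ) / (2 * R)) +
        J * (4 * R + 64 * J * R * L))} ⊆
      {ω | ¬ Good R n (fun i => X i ω)} ∪ ⋃ j ∈ range J, ⋃ τ ∈ (univ : Finset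
        (Fin (2 ^ (j + 1)) → Fin (n + 1))), Bad j τ := by
    intro ω hω
    by_contra hcon
    rw [Set.mem_union, not_or] at hcon
    obtain ⟨hc1, hc2⟩ := hcon
    have hG : Good R n (fun i => X i ω) := by
      by_contra h
      exact hc1 h
    apply hω
    intro T hT hmono
    apply card_mul_le h1 h0 (fun k => ∑ i ∈ range k, X i ω) n R _ hR hG _ T hT hmono
    intro κ hκ hκR
    apply A_bound h1 h2 h0 _ n R L J hR hJ hnJ hG _ κ hκ hκR
    intro j hj k hk hkj
    obtain ⟨τ, hτ⟩ := exists_τ (n := n) hk hkj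
    by_contra hlt
    apply hc2
    simp only [Set.mem_iUnion]
    refine ⟨j, mem_range.2 hj, τ, mem_univ _, ?_⟩
    change 2 ^ (j + 2) * L ≤ _
    refine le_trans (not_le.1 hlt).le (le_of_eq ?_)
    apply sum_congr rfl
    intro t ht
    rw [hτ t (mem_range.1 ht), Finset.sum_range_succ, add_sub_cancel_left]
  have hBad : ∀ j < J, ∀ τ, P (Bad j τ) ≤ ENNReal.ofReal (Real.exp (-(2 ^ (j + 2) * L))) := by
    intro j hj τ
    have hh : 0 < 4 * R / 2 ^ (j + 1) := by positivity
    apply exp_tail hX hind (fun t s z => Q μ R (4 * R / 2 ^ (j + 1))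
      (1 / (8 * J * (4 * R / 2 ^ (j + 1)))) (kτ τ t) s z)
    · intro t
      exact measurable_Q h1 _ _ _ _
    · intro t s
      rw [hμ t]
      apply lintegral_Q _ _ _ hh.le (by positivity)
      have h1J : (1 : ℝ) ≤ J := by exact_mod_cast hJ
      have e : 1 / (8 * (J : ℝ) * (4 * R / 2 ^ (j + 1))) * (2 * (4 * R / 2 ^ (j + 1))) =
          1 / (4 * J) := by
        field_simp; ring
      rw [e, div_le_one (by positivity)]
      linarith
  have hUn : ∀ j ∈ range J, P (⋃ τ ∈ (univ : Finset (Fin (2 ^ (j + 1)) → Fin (n + 1))),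
      Bad j τ) ≤ ENNReal.ofReal (Real.exp (-(2 * L))) := by
    intro j hj
    calc P (⋃ τ ∈ (univ : Finset (Fin (2 ^ (j + 1)) → Fin (n + 1))), Bad j τ)
        ≤ ∑ τ ∈ (univ : Finset (Fin (2 ^ (j + 1)) → Fin (n + 1))), P (Bad j τ) :=
          measure_biUnion_finset_le _ _
      _ ≤ ∑ τ ∈ (univ : Finset (Fin (2 ^ (j + 1)) → Fin (n + 1))),
            ENNReal.ofReal (Real.exp (-(2 ^ (j + 2) * L))) :=
          sum_le_sum fun τ _ => hBad j (mem_range.1 hj) τ
      _ = ENNReal.ofReal (((n : ℝ) + 1) ^ 2 ^ (j + 1) * Real.exp (-(2 ^ (j + 2) * L))) := by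
          rw [sum_const, card_univ, Fintype.card_fun, Fintype.card_fin, Fintype.card_fin,
            nsmul_eq_mul, ENNReal.ofReal_mul (by positivity)]
          congr 1
          rw [ENNReal.ofReal_pow (by positivity)]
          push_cast
          congr 1
          rw [ENNReal.ofReal_add (by positivity) (by norm_num)]
          simp
      _ ≤ ENNReal.ofReal (Real.exp (-(2 * L))) := by
          apply ENNReal.ofReal_le_ofReal
          have hn1 : (0 : ℝ) < (n : ℝ) + 1 := by positivity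
          have e : ((n : ℝ) + 1) ^ 2 ^ (j + 1) = Real.exp (2 ^ (j + 1) * L) := by
            have : (2 : ℝ) ^ (j + 1) * L = ((2 ^ (j + 1) : ℕ) : ℝ) * L := by push_cast; ring
            rw [this, mul_comm, ← Real.rpow_natCast, Real.rpow_def_of_pos hn1]
          rw [e, ← Real.exp_add]
          apply Real.exp_le_exp.2
          have h3 : (2 : ℝ) ≤ 2 ^ (j + 1) := by
            calc (2 : ℝ) = 2 ^ 1 := by norm_num
              _ ≤ 2 ^ (j + 1) := pow_le_pow_right₀ (by norm_num) (by omega)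
          have h4 : (2 : ℝ) ^ (j + 2) = 2 * 2 ^ (j + 1) := by ring
          rw [h4]
          nlinarith
  have hKol := kolmogorov hX hind (ENNReal.ofReal (∫ z, z ^ 2 ∂μ))
    (by
      intro t s
      rw [hμ t]
      have hi : Integrable (fun z : ℝ => (s + z) ^ 2) μ := by
        have : (fun z : ℝ => (s + z) ^ 2) = fun z => s ^ 2 + (2 * s * z + z ^ 2) := by
          ext z; ring
        rw [this]
        exact (integrable_const _).add ((h1.const_mul _).add h2)
      rw [← ofReal_integral_eq_lintegral_ofReal hi (Filter.Eventually.of_forall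
        fun z => sq_nonneg _), ← ENNReal.ofReal_add (sq_nonneg _)
        (integral_nonneg fun z => sq_nonneg z)]
      congr 1
      have e : (fun z : ℝ => (s + z) ^ 2) = fun z => s ^ 2 + (2 * s * z + z ^ 2) := by
        ext z; ring
      have i1 : Integrable (fun z : ℝ => 2 * s * z) μ := h1.const_mul _
      have i2 : Integrable (fun z : ℝ => 2 * s * z + z ^ 2) μ := i1.add h2
      rw [e, integral_add (integrable_const _) i2, integral_add i1 h2, integral_const_mul, h0]
      simp)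
    R hR.le n
  have hKol' : P {ω | ¬ Good R n (fun i => X i ω)} ≤
      ENNReal.ofReal (n * (∫ z, z ^ 2 ∂μ) / R ^ 2) := by
    have hR2 : (0 : ℝ) < R ^ 2 := by positivity
    rw [ENNReal.ofReal_div_of_pos hR2, ENNReal.le_div_iff_mul_le
      (Or.inl (by simpa using hR.ne')) (Or.inl ENNReal.ofReal_ne_top), mul_comm]
    refine hKol.trans (le_of_eq ?_)
    rw [ENNReal.ofReal_mul (by positivity)]
    simp
  calc P _ ≤ P ({ω | ¬ Good R n (fun i => X i ω)} ∪ ⋃ j ∈ range J, ⋃ τ ∈ (univ : Finset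
        (Fin (2 ^ (j + 1)) → Fin (n + 1))), Bad j τ) := measure_mono hsub
    _ ≤ P {ω | ¬ Good R n (fun i => X i ω)} + P (⋃ j ∈ range J, ⋃ τ ∈ (univ : Finset
        (Fin (2 ^ (j + 1)) → Fin (n + 1))), Bad j τ) := measure_union_le _ _
    _ ≤ ENNReal.ofReal (n * (∫ z, z ^ 2 ∂μ) / R ^ 2) +
        J * ENNReal.ofReal (Real.exp (-(2 * L))) := by
        apply add_le_add hKol'
        calc P (⋃ j ∈ range J, ⋃ τ ∈ (univ : Finset
              (Fin (2 ^ (j + 1)) → Fin (n + 1))), Bad j τ)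
            ≤ ∑ j ∈ range J, P (⋃ τ ∈ (univ : Finset
              (Fin (2 ^ (j + 1)) → Fin (n + 1))), Bad j τ) := measure_biUnion_finset_le _ _
          _ ≤ ∑ j ∈ range J, ENNReal.ofReal (Real.exp (-(2 * L))) := sum_le_sum hUn
          _ = J * ENNReal.ofReal (Real.exp (-(2 * L))) := by
              rw [sum_const, card_range, nsmul_eq_mul]

end Pool.Agent.LISWalk
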