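import Mathlib

set_option autoImplicit false
set_option linter.unusedSectionVars false

/-!
Functions attached to the step distribution `μ` of a centred random walk with finite variance.
-/

namespace Pool.Agent.LISWalk

open MeasureTheory

/-- The local time density `D r = E |r + X| - |r|`. -/
noncomputable def D (μ : Measure ℝ) (r : ℝ) : ℝ := ∫ z, (|r + z| - |r|) ∂μ

/-- The difference of two absolute values. -/
noncomputable def psi (h u : ℝ) : ℝ := |u - h| - |u|

/-- Conditional mean of the increment of `psi h`. -/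
noncomputable def g (μ : Measure ℝ) (h r : ℝ) : ℝ := ∫ z, (psi h (r + z) - psi h r) ∂μ

/-- Conditional second moment of the increment of `psi h`. -/
noncomputable def w (μ : Measure ℝ) (h r : ℝ) : ℝ := ∫ z, (psi h (r + z) - psi h r) ^ 2 ∂μ

theorem continuous_psi (h : ℝ) : Continuous (psi h) := by unfold psi; fun_prop

theorem psi_le (h u : ℝ) (hh : 0 ≤ h) : psi h u ≤ h := by
  unfold psi
  have := abs_sub_abs_le_abs_sub (u - h) u
  rw [show u - h - u = -h by ring, abs_neg, abs_of_nonneg hh] at this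
  exact this

theorem neg_le_psi (h u : ℝ) (hh : 0 ≤ h) : -h ≤ psi h u := by
  unfold psi
  have := abs_sub_abs_le_abs_sub u (u - h)
  rw [show u - (u - h) = h by ring, abs_of_nonneg hh] at this
  linarith

theorem abs_psi_sub_le (h u v : ℝ) (hh : 0 ≤ h) : |psi h u - psi h v| ≤ 2 * h := by
  rw [abs_le]
  constructor <;> linarith [psi_le h u hh, psi_le h v hh, neg_le_psi h u hh, neg_le_psi h v hh]

variable {μ : Measure ℝ} [IsProbabilityMeasure μ]

theorem integrable_abs_sub (h1 : Integrable (fun z : ℝ => z) μ) (r : ℝ) :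
    Integrable (fun z => |r + z| - |r|) μ := by
  refine Integrable.mono' h1.abs (by fun_prop) (Filter.Eventually.of_forall fun z => ?_)
  rw [Real.norm_eq_abs]
  have := abs_abs_sub_abs_le_abs_sub (r + z) r
  simpa using this

theorem D_nonneg (h1 : Integrable (fun z : ℝ => z) μ) (h0 : ∫ z, z ∂μ = 0) (r : ℝ) :
    0 ≤ D μ r := by
  unfold D
  have hi : Integrable (fun z : ℝ => |r + z|) μ := ((integrable_const r).add h1).abs
  rw [integral_sub hi (integrable_const _)]
  have h2 : |∫ z, (r + z) ∂μ| ≤ ∫ z, |r + z| ∂μ := abs_integral_le_integral_abs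
  rw [integral_add (integrable_const r) h1, h0] at h2
  simp only [integral_const, probReal_univ, smul_eq_mul, one_mul, add_zero] at h2 ⊢
  linarith

theorem D_zero : D μ 0 = ∫ z, |z| ∂μ := by
  unfold D; simp

theorem D_lip (h1 : Integrable (fun z : ℝ => z) μ) (r r' : ℝ) :
    |D μ r - D μ r'| ≤ 2 * |r - r'| := by
  unfold D
  rw [← integral_sub (integrable_abs_sub h1 r) (integrable_abs_sub h1 r')]
  calc |∫ z, (|r + z| - |r| - (|r' + z| - |r'|)) ∂μ|
      ≤ ∫ z, |(|r + z| - |r| - (|r' + z| - |r'|))| ∂μ := abs_integral_le_integral_abs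
    _ ≤ ∫ _z, 2 * |r - r'| ∂μ := by
        apply integral_mono_of_nonneg (Filter.Eventually.of_forall fun z => abs_nonneg _)
          (integrable_const _)
        apply Filter.Eventually.of_forall
        intro z
        have e1 := abs_abs_sub_abs_le_abs_sub (r + z) (r' + z)
        have e2 := abs_abs_sub_abs_le_abs_sub r r'
        rw [show r + z - (r' + z) = r - r' by ring] at e1
        change |(|r + z| - |r| - (|r' + z| - |r'|))| ≤ 2 * |r - r'|
        rw [abs_le] at e1 e2 ⊢
        constructor <;> linarith [e1.1, e1.2, e2.1, e2.2]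
    _ = 2 * |r - r'| := by simp

theorem continuous_D (h1 : Integrable (fun z : ℝ => z) μ) : Continuous (D μ) := by
  apply LipschitzWith.continuous (K := 2)
  apply LipschitzWith.of_dist_le_mul
  intro r r'
  rw [Real.dist_eq, Real.dist_eq]
  exact D_lip h1 r r'

theorem D_mono_pos (h1 : Integrable (fun z : ℝ => z) μ) {a b : ℝ} (ha : 0 ≤ a) (hab : a ≤ b) :
    D μ b ≤ D μ a := by
  unfold D
  apply integral_mono (integrable_abs_sub h1 b) (integrable_abs_sub h1 a)
  intro z
  have e1 := abs_sub_abs_le_abs_sub (b + z) (a + z)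
  rw [show b + z - (a + z) = b - a by ring, abs_of_nonneg (sub_nonneg.2 hab)] at e1
  change |b + z| - |b| ≤ |a + z| - |a|
  rw [abs_of_nonneg ha, abs_of_nonneg (ha.trans hab)]
  linarith

theorem D_mono_neg (h1 : Integrable (fun z : ℝ => z) μ) {a b : ℝ} (ha : a ≤ 0) (hab : b ≤ a) :
    D μ b ≤ D μ a := by
  unfold D
  apply integral_mono (integrable_abs_sub h1 b) (integrable_abs_sub h1 a)
  intro z
  have e1 := abs_sub_abs_le_abs_sub (b + z) (a + z)
  rw [show b + z - (a + z) = b - a by ring, abs_of_nonpos (sub_nonpos.2 hab)] at e1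
  change |b + z| - |b| ≤ |a + z| - |a|
  rw [abs_of_nonpos ha, abs_of_nonpos (hab.trans ha)]
  linarith

theorem D_le_D_zero (h1 : Integrable (fun z : ℝ => z) μ) (r : ℝ) : D μ r ≤ D μ 0 := by
  rcases le_total 0 r with h | h
  · exact D_mono_pos h1 le_rfl h
  · exact D_mono_neg h1 le_rfl h

theorem D_tail (h1 : Integrable (fun z : ℝ => z) μ) (h2 : Integrable (fun z : ℝ => z ^ 2) μ)
    (h0 : ∫ z, z ∂μ = 0) {r : ℝ} (hr : 0 < r) : D μ r ≤ (∫ z, z ^ 2 ∂μ) / (2 * r) := by
  unfold D
  have h3 : ∫ z, (z + z ^ 2 / (2 * r)) ∂μ = (∫ z, z ^ 2 ∂μ) / (2 * r) := by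
    rw [integral_add h1 (h2.div_const _), h0, zero_add, integral_div]
  rw [← h3]
  apply integral_mono (integrable_abs_sub h1 r) (h1.add (h2.div_const _))
  intro z
  change |r + z| - |r| ≤ z + z ^ 2 / (2 * r)
  rw [abs_of_pos hr]
  have h4 : |r + z| ≤ ((r + z) ^ 2 + r ^ 2) / (2 * r) := by
    rw [le_div_iff₀ (by positivity)]
    nlinarith [sq_abs (r + z), sq_nonneg (|r + z| - r)]
  have h5 : ((r + z) ^ 2 + r ^ 2) / (2 * r) = r + z + z ^ 2 / (2 * r) := by
    field_simp; ring
  linarith

theorem g_eq (h1 : Integrable (fun z : ℝ => z) μ) (h r : ℝ) :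
    g μ h r = D μ (r - h) - D μ r := by
  unfold g D
  rw [← integral_sub (integrable_abs_sub h1 (r - h)) (integrable_abs_sub h1 r)]
  congr 1
  ext z
  unfold psi
  rw [show r + z - h = r - h + z by ring]
  ring

theorem integrable_psi (h r : ℝ) (hh : 0 ≤ h) :
    Integrable (fun z => psi h (r + z) - psi h r) μ := by
  refine Integrable.of_bound (C := 2 * h) ?_ (Filter.Eventually.of_forall fun z => ?_)
  · exact (((continuous_psi h).comp (continuous_const_add r)).sub
      continuous_const).aestronglyMeasurable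
  · rw [Real.norm_eq_abs]
    exact abs_psi_sub_le h _ _ hh

theorem integrable_psi_sq (h r : ℝ) (hh : 0 ≤ h) :
    Integrable (fun z => (psi h (r + z) - psi h r) ^ 2) μ := by
  refine Integrable.of_bound (C := (2 * h) ^ 2) ?_ (Filter.Eventually.of_forall fun z => ?_)
  · exact ((((continuous_psi h).comp (continuous_const_add r)).sub
      continuous_const).pow 2).aestronglyMeasurable
  · rw [Real.norm_eq_abs, abs_of_nonneg (sq_nonneg _), ← sq_abs]
    exact pow_le_pow_left₀ (abs_nonneg _) (abs_psi_sub_le h _ _ hh) 2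

theorem w_nonneg (h r : ℝ) : 0 ≤ w μ h r := integral_nonneg fun _ => sq_nonneg _

/-- Exponential moment estimate. -/
theorem exp_moment (h r θ : ℝ) (hh : 0 ≤ h) (hθ : 0 ≤ θ) (hθh : θ * (2 * h) ≤ 1) :
    ∫⁻ z, ENNReal.ofReal (Real.exp (-θ * (psi h (r + z) - psi h r - g μ h r) -
      θ ^ 2 * w μ h r)) ∂μ ≤ 1 := by
  have hexp : ∀ y : ℝ, |y| ≤ 1 → Real.exp y ≤ 1 + y + y ^ 2 := by
    intro y hy
    have := Real.abs_exp_sub_one_sub_id_le hy
    have := le_abs_self (Real.exp y - 1 - y)
    linarith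
  have hint1 := integrable_psi (μ := μ) h r hh
  have hint2 := integrable_psi_sq (μ := μ) h r hh
  set Y : ℝ → ℝ := fun z => psi h (r + z) - psi h r with hY
  have hb : ∀ z, Real.exp (-θ * (Y z - g μ h r) - θ ^ 2 * w μ h r) ≤
      (1 + (-θ * Y z) + (-θ * Y z) ^ 2) * Real.exp (θ * g μ h r - θ ^ 2 * w μ h r) := by
    intro z
    have h1 : |(-θ * Y z)| ≤ 1 := by
      rw [abs_mul, abs_neg, abs_of_nonneg hθ]
      exact le_trans (mul_le_mul_of_nonneg_left (abs_psi_sub_le h _ _ hh) hθ) hθh
    have h2 : -θ * (Y z - g μ h r) - θ ^ 2 * w μ h r =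
        -θ * Y z + (θ * g μ h r - θ ^ 2 * w μ h r) := by ring
    rw [h2, Real.exp_add]
    exact mul_le_mul_of_nonneg_right (hexp _ h1) (Real.exp_pos _).le
  have hI : Integrable (fun z => (1 + (-θ * Y z) + (-θ * Y z) ^ 2) *
      Real.exp (θ * g μ h r - θ ^ 2 * w μ h r)) μ := by
    apply Integrable.mul_const
    apply ((integrable_const 1).add (hint1.const_mul (-θ))).add
    have e : (fun z => (-θ * Y z) ^ 2) = fun z => θ ^ 2 * (Y z) ^ 2 := by ext z; ring
    rw [e]
    exact hint2.const_mul (θ ^ 2)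
  calc ∫⁻ z, ENNReal.ofReal (Real.exp (-θ * (Y z - g μ h r) - θ ^ 2 * w μ h r)) ∂μ
      ≤ ∫⁻ z, ENNReal.ofReal ((1 + (-θ * Y z) + (-θ * Y z) ^ 2) *
          Real.exp (θ * g μ h r - θ ^ 2 * w μ h r)) ∂μ :=
        lintegral_mono fun z => ENNReal.ofReal_le_ofReal (hb z)
    _ = ENNReal.ofReal (∫ z, (1 + (-θ * Y z) + (-θ * Y z) ^ 2) *
          Real.exp (θ * g μ h r - θ ^ 2 * w μ h r) ∂μ) := by
        rw [ofReal_integral_eq_lintegral_ofReal hI]
        apply Filter.Eventually.of_forall
        intro z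
        exact le_trans (Real.exp_pos _).le (hb z)
    _ ≤ 1 := by
        rw [integral_mul_const]
        have e1 : ∫ z, (1 + (-θ * Y z) + (-θ * Y z) ^ 2) ∂μ =
            1 + (-θ * g μ h r + θ ^ 2 * w μ h r) := by
          have hg : ∫ z, Y z ∂μ = g μ h r := rfl
          have hw : ∫ z, (Y z) ^ 2 ∂μ = w μ h r := rfl
          have ha : Integrable (fun z => (1 : ℝ) + (-θ * Y z)) μ :=
            (integrable_const 1).add (hint1.const_mul (-θ))
          have hb' : Integrable (fun z => θ ^ 2 * (Y z) ^ 2) μ := hint2.const_mul (θ ^ 2)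
          have hc : Integrable (fun z => -θ * Y z) μ := hint1.const_mul (-θ)
          have s1 : ∫ z, ((1 + (-θ * Y z)) + θ ^ 2 * (Y z) ^ 2) ∂μ =
              ∫ z, (1 + (-θ * Y z)) ∂μ + ∫ z, θ ^ 2 * (Y z) ^ 2 ∂μ := integral_add ha hb'
          have s2 : ∫ z, ((1 : ℝ) + (-θ * Y z)) ∂μ = ∫ _z, (1 : ℝ) ∂μ + ∫ z, -θ * Y z ∂μ :=
            integral_add (integrable_const 1) hc
          have e : (fun z => 1 + (-θ * Y z) + (-θ * Y z) ^ 2) =
              fun z => (1 + (-θ * Y z)) + θ ^ 2 * (Y z) ^ 2 := by ext z; ring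
          rw [e, s1, s2, integral_const_mul, integral_const_mul, hg, hw]
          simp only [integral_const, probReal_univ, smul_eq_mul, one_mul]
          ring
        rw [e1]
        have e2 : 1 + (-θ * g μ h r + θ ^ 2 * w μ h r) ≤
            Real.exp (-θ * g μ h r + θ ^ 2 * w μ h r) := by
          have := Real.add_one_le_exp (-θ * g μ h r + θ ^ 2 * w μ h r)
          linarith
        have e3 : (1 + (-θ * g μ h r + θ ^ 2 * w μ h r)) *
            Real.exp (θ * g μ h r - θ ^ 2 * w μ h r) ≤ 1 := by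
          calc (1 + (-θ * g μ h r + θ ^ 2 * w μ h r)) *
                Real.exp (θ * g μ h r - θ ^ 2 * w μ h r)
              ≤ Real.exp (-θ * g μ h r + θ ^ 2 * w μ h r) *
                Real.exp (θ * g μ h r - θ ^ 2 * w μ h r) :=
                mul_le_mul_of_nonneg_right e2 (Real.exp_pos _).le
            _ = 1 := by
                rw [← Real.exp_add]
                have : -θ * g μ h r + θ ^ 2 * w μ h r + (θ * g μ h r - θ ^ 2 * w μ h r) = 0 := by
                  ring
                rw [this, Real.exp_zero]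
        calc ENNReal.ofReal _ ≤ ENNReal.ofReal 1 := ENNReal.ofReal_le_ofReal e3
          _ = 1 := ENNReal.ofReal_one

end Pool.Agent.LISWalk
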