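import Pool.Agent.MP_05a99f_pr.StepLaw

set_option autoImplicit false
set_option linter.unusedSectionVars false

/-!
The conditional variance of the increment of `psi h` is controlled by the local time density `D`,
averaged over a window of width `h`.
-/

namespace Pool.Agent.LISWalk

open MeasureTheory

/-- Closed form of `∫ s in 0..h, |u - s|`. -/
noncomputable def F (h u : ℝ) : ℝ := (u * |u| + (h - u) * |h - u|) / 2

theorem pointwise_bound (h a b : ℝ) (hh : 0 ≤ h) :
    (psi h b - psi h a) ^ 2 ≤ 4 * (F h b - F h a + psi h a * (b - a)) := by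
  unfold psi F
  rcases le_total 0 a with ha | ha <;> rcases le_total a h with hah | hah <;>
    rcases le_total 0 b with hb | hb <;> rcases le_total b h with hbh | hbh <;>
    simp only [abs_of_nonneg, abs_of_nonpos, ha, hb, sub_nonneg.2 hah, sub_nonpos.2 hah,
      sub_nonneg.2 hbh, sub_nonpos.2 hbh] <;>
    nlinarith [mul_nonneg hh hh]

theorem integral_abs_sub_eq (h u : ℝ) (hh : 0 ≤ h) : ∫ s in (0 : ℝ)..h, |u - s| = F h u := by
  have key := integral_eq_of_hasDerivAt_off_countable_of_le
    (fun s : ℝ => (s - u) * |s - u| / 2) (fun s => |u - s|) hh (Set.countable_singleton u)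
    (by fun_prop) ?_ ?_
  · rw [key]
    unfold F
    rw [zero_sub, abs_neg, ← abs_neg (h - u), abs_neg (h - u)]
    ring
  · intro x hx
    have hxu : x - u ≠ 0 := by
      intro h0
      exact hx.2 (by simpa [sub_eq_zero] using h0)
    rcases lt_or_gt_of_ne hxu with hlt | hgt
    · have h1 : HasDerivAt (fun s : ℝ => (s - u) * |s - u|) (1 * |x - u| + (x - u) * (-1)) x := by
        have ha : HasDerivAt (fun s : ℝ => s - u) 1 x := (hasDerivAt_id x).sub_const u
        have hb : HasDerivAt (fun s : ℝ => |s - u|) (-1) x := by
          have := (hasDerivAt_abs_neg hlt).comp x ha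
          simpa [Function.comp_def] using this
        exact ha.mul hb
      have h2 := h1.div_const 2
      refine h2.congr_deriv ?_
      rw [abs_sub_comm u x, abs_of_neg hlt]
      ring
    · have h1 : HasDerivAt (fun s : ℝ => (s - u) * |s - u|) (1 * |x - u| + (x - u) * 1) x := by
        have ha : HasDerivAt (fun s : ℝ => s - u) 1 x := (hasDerivAt_id x).sub_const u
        have hb : HasDerivAt (fun s : ℝ => |s - u|) 1 x := by
          have := (hasDerivAt_abs_pos hgt).comp x ha
          simpa [Function.comp_def] using this
        exact ha.mul hb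
      have h2 := h1.div_const 2
      refine h2.congr_deriv ?_
      rw [abs_sub_comm u x, abs_of_pos hgt]
      ring
  · exact Continuous.intervalIntegrable (by fun_prop) _ _

variable {μ : Measure ℝ} [IsProbabilityMeasure μ]

theorem integrable_F_diff (h1 : Integrable (fun z : ℝ => z) μ) (h r : ℝ) (hh : 0 ≤ h) :
    Integrable (fun z => F h (r + z) - F h r) μ ∧
    ∫ z, (F h (r + z) - F h r) ∂μ = ∫ s in (0 : ℝ)..h, D μ (r - s) := by
  have e : (fun z => F h (r + z) - F h r) =
      fun z => ∫ s in (0 : ℝ)..h, (|r - s + z| - |r - s|) := by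
    ext z
    rw [← integral_abs_sub_eq h _ hh, ← integral_abs_sub_eq h _ hh,
      ← intervalIntegral.integral_sub]
    · congr 1
      ext s
      rw [show r + z - s = r - s + z by ring]
    · exact Continuous.intervalIntegrable (by fun_prop) _ _
    · exact Continuous.intervalIntegrable (by fun_prop) _ _
  have hint : Integrable (Function.uncurry fun (s z : ℝ) => |r - s + z| - |r - s|)
      ((volume.restrict (Set.uIoc 0 h)).prod μ) := by
    have h2 : Integrable (fun p : ℝ × ℝ => |p.2|) ((volume.restrict (Set.uIoc 0 h)).prod μ) := by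
      have : IsFiniteMeasure (volume.restrict (Set.uIoc 0 h)) := by
        constructor
        rw [Measure.restrict_apply_univ, Set.uIoc_of_le hh, Real.volume_Ioc]
        exact ENNReal.ofReal_lt_top
      exact h1.abs.comp_snd _
    refine Integrable.mono' h2 ?_ (Filter.Eventually.of_forall fun p => ?_)
    · apply Continuous.aestronglyMeasurable
      unfold Function.uncurry
      fun_prop
    · rw [Real.norm_eq_abs]
      have := abs_abs_sub_abs_le_abs_sub (r - p.1 + p.2) (r - p.1)
      simpa [Function.uncurry] using this
  constructor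
  · rw [e]
    have := hint.integral_prod_right
    simp only [Function.uncurry] at this
    simpa [intervalIntegral.integral_of_le hh, Set.uIoc_of_le hh] using this
  · rw [e]
    exact (intervalIntegral_integral_swap (f := fun s z => |r - s + z| - |r - s|) hint).symm

/-- The self-bounding property of the conditional variance. -/
theorem w_le (h1 : Integrable (fun z : ℝ => z) μ) (h0 : ∫ z, z ∂μ = 0) (h r : ℝ) (hh : 0 ≤ h) :
    w μ h r ≤ 4 * ∫ s in (0 : ℝ)..h, D μ (r - s) := by
  obtain ⟨hF, hF2⟩ := integrable_F_diff h1 h r hh
  rw [← hF2]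
  have e : ∫ z, (F h (r + z) - F h r) ∂μ = ∫ z, (F h (r + z) - F h r + psi h r * z) ∂μ := by
    rw [integral_add hF (h1.const_mul _), integral_const_mul, h0, mul_zero, add_zero]
  rw [e, ← integral_const_mul]
  unfold w
  apply integral_mono (integrable_psi_sq h r hh) ((hF.add (h1.const_mul _)).const_mul 4)
  intro z
  have := pointwise_bound h r (r + z) hh
  simpa using this

theorem continuous_g (h1 : Integrable (fun z : ℝ => z) μ) (h : ℝ) : Continuous (g μ h) := by
  have e : g μ h = fun r => D μ (r - h) - D μ r := by
    ext r; exact g_eq h1 h r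
  rw [e]
  have := continuous_D h1
  fun_prop

theorem measurable_w (h : ℝ) : Measurable (w μ h) := by
  have : StronglyMeasurable (fun r => ∫ z, (psi h (r + z) - psi h r) ^ 2 ∂μ) := by
    apply MeasureTheory.StronglyMeasurable.integral_prod_right'
      (f := fun p : ℝ × ℝ => (psi h (p.1 + p.2) - psi h p.1) ^ 2)
    apply Continuous.stronglyMeasurable
    have := continuous_psi h
    fun_prop
  exact this.measurable

end Pool.Agent.LISWalk
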